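import Mathlib
import Pool.Agent.Y817.BC.Stm

/-!
Project BC, part MACH: a register machine enumerating a recursively inseparable pair.
-/

set_option autoImplicit false

namespace Pool.Agent.Y550.BC.Mach

open Function Pool.Agent.Helper273.Reg Pool.Agent.Helper273.Machine Pool.Agent.Y817.BC
open Nat.Partrec (Code)

/-! ### The enumerated pair -/

/-- The number of the `n`-th datum for the answer `b`. -/
def G0 (b : Bool) (n : ℕ) : ℕ :=
  if Code.evaln n.unpair.1 (Denumerable.ofNat Code n.unpair.2) n.unpair.2 =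
    some (if b then 1 else 0) then n.unpair.2 + 2 else (if b then 1 else 0)

/-- The value of the register `0` at the checks. -/
def F (b : Bool) (n : ℕ) : ℕ := 2 ^ G0 b n - 1

theorem F_val (b : Bool) (n : ℕ) : padicValNat 2 (F b n + 1) = G0 b n := by
  have h : F b n + 1 = 2 ^ G0 b n := by
    unfold F
    have : 0 < 2 ^ G0 b n := by positivity
    omega
  rw [h, padicValNat.prime_pow]

theorem primrec_pow2 : Primrec fun n : ℕ => 2 ^ n :=
  (Primrec₂.unpaired'.1 Nat.Primrec.pow).comp (Primrec.const 2) Primrec.id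

theorem primrec_G0 (b : Bool) : Primrec (G0 b) := by
  have hu : Primrec fun n : ℕ => n.unpair := Primrec.unpair
  have h1 : Primrec fun n : ℕ => n.unpair.1 := Primrec.fst.comp hu
  have h2 : Primrec fun n : ℕ => n.unpair.2 := Primrec.snd.comp hu
  have h3 : Primrec fun n : ℕ => Denumerable.ofNat Code n.unpair.2 := (Primrec.ofNat Code).comp h2
  have h4 : Primrec fun n : ℕ =>
      Code.evaln n.unpair.1 (Denumerable.ofNat Code n.unpair.2) n.unpair.2 := by
    have h5 : Primrec fun n : ℕ =>
        (((n.unpair.1, Denumerable.ofNat Code n.unpair.2), n.unpair.2) : (ℕ × Code) × ℕ) :=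
      Primrec.pair (Primrec.pair h1 h3) h2
    exact Code.primrec_evaln.comp h5
  unfold G0
  exact Primrec.ite (Primrec.eq.comp h4 (Primrec.const _)) (Primrec.succ.comp (Primrec.succ.comp h2))
    (Primrec.const _)

theorem primrec_F (b : Bool) : Primrec (F b) :=
  Primrec.nat_sub.comp (primrec_pow2.comp (primrec_G0 b)) (Primrec.const 1)

theorem exists_cmd (b : Bool) : ∃ c : Cmd, ∀ σ : ℕ → ℕ, (∀ r, 2 ≤ r → σ r = 0) → σ 0 = 0 →
    Exec c σ (update σ 0 (F b (σ 1))) := by
  have h1 : Primrec fun v : List.Vector ℕ 1 => F b v.head :=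
    (primrec_F b).comp Primrec.vector_head
  obtain ⟨c, hc⟩ := comp_of_primrec (Nat.Primrec'.of_prim h1) ![1] 0 2 (by intro i; fin_cases i; simp)
    (by omega) (by intro i; fin_cases i; simp)
  refine ⟨c, fun σ hσ h0 => (hc σ hσ h0).congr rfl ?_⟩
  simp

/-! ### Simulation with a bound for the places -/

/-- A path with a property of the intermediate configurations. -/
def Path (P : List Ins) (V : ℕ × (ℕ → ℕ) → Prop) (s t : ℕ × (ℕ → ℕ)) : Prop :=
  ∃ k, (step P)^[k] s = t ∧ ∀ j < k, V ((step P)^[j] s)

theorem Path.trans {P : List Ins} {V : ℕ × (ℕ → ℕ) → Prop} {s t u : ℕ × (ℕ → ℕ)}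
    (h1 : Path P V s t) (h2 : Path P V t u) : Path P V s u := by
  obtain ⟨k1, e1, v1⟩ := h1
  obtain ⟨k2, e2, v2⟩ := h2
  refine ⟨k2 + k1, by rw [iterate_add_apply, e1, e2], fun j hj => ?_⟩
  by_cases hjk : j < k1
  · exact v1 j hjk
  · have := v2 (j - k1) (by omega)
    rw [← e1, ← iterate_add_apply] at this
    rwa [show j - k1 + k1 = j by omega] at this

theorem Path.one {P : List Ins} {V : ℕ × (ℕ → ℕ) → Prop} {s t : ℕ × (ℕ → ℕ)}
    (h1 : step P s = t) (h2 : V s) : Path P V s t :=
  ⟨1, h1, fun j hj => by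
    obtain rfl : j = 0 := by omega
    exact h2⟩

theorem Path.mono {P : List Ins} {V V' : ℕ × (ℕ → ℕ) → Prop} {s t : ℕ × (ℕ → ℕ)}
    (h1 : Path P V s t) (h2 : ∀ x, V x → V' x) : Path P V' s t := by
  obtain ⟨k, e, v⟩ := h1
  exact ⟨k, e, fun j hj => h2 _ (v j hj)⟩

/-- The places of a piece of code. -/
def In (o l : ℕ) (x : ℕ × (ℕ → ℕ)) : Prop := o ≤ x.1 ∧ x.1 < o + l

theorem sim' {c : Cmd} {σ τ : ℕ → ℕ} (h : Exec c σ τ) (P : List Ins) (o : ℕ)
    (hP : IsAt P o (code c o)) : Path P (In o (len c)) (o, σ) (o + len c, τ) := by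
  induction h generalizing o with
  | nop σ => exact ⟨0, rfl, fun j hj => by omega⟩
  | inc r σ =>
    have := hP.get
    refine Path.one ?_ ?_
    · simp only [step, this, len]
    · simp only [In, len]; omega
  | @seq c d σ τ ρ _ _ ihc ihd =>
    have h1 : IsAt P o (code c o) := hP.left
    have h2 : IsAt P (o + len c) (code d (o + len c)) := by
      have := hP.right
      rwa [length_code] at this
    have p1 : Path P (In o (len (.seq c d))) _ _ := (ihc o h1).mono (by
      intro x hx; simp only [In, len] at hx ⊢; omega)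
    have p2 : Path P (In o (len (.seq c d))) _ _ := (ihd _ h2).mono (by
      intro x hx; simp only [In, len] at hx ⊢; omega)
    have := p1.trans p2
    simpa only [len, add_assoc] using this
  | @loop_zero r c σ h0 =>
    have := hP.get
    refine Path.one ?_ ?_
    · simp only [step, this, h0, len, if_true]
    · simp only [In, len]; omega
  | @loop_succ r c σ τ ρ k h0 _ _ ih1 ih2 =>
    have g0 := hP.get
    have h1 : IsAt P (o + 1) (code c (o + 1) ++ [.jmp o]) := IsAt.right (l := [_]) hP
    have g1 : P[o + 1 + len c]? = some (.jmp o) := by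
      have := h1.right
      rw [length_code] at this
      exact this.get
    have s1 : step P (o, σ) = (o + 1, update σ r k) := by
      simp only [step, g0, h0]
      simp
    have s2 : step P (o + 1 + len c, τ) = (o, τ) := by
      simp only [step, g1]
    refine (Path.one s1 (by simp only [In, len]; omega)).trans
      (((ih1 (o + 1) h1.left).mono ?_).trans
        ((Path.one s2 (by simp only [In, len]; omega)).trans (ih2 o hP)))
    intro x hx
    simp only [In, len] at hx ⊢
    omega

/-! ### The program -/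

/-- The states at the beginning of a round. -/
def s0 (n : ℕ) : ℕ → ℕ := fun r => if r = 1 then n else 0

/-- The value `x` in the register `0`. -/
def s1 (x n : ℕ) : ℕ → ℕ := fun r => if r = 0 then x else if r = 1 then n else 0

theorem s1_zero (n : ℕ) : s1 0 n = s0 n := by
  funext r
  simp only [s1, s0]
  split_ifs <;> omega

theorem up0 (x y n : ℕ) : update (s1 x n) 0 y = s1 y n := by
  funext r
  simp only [update_apply, s1]
  split_ifs <;> rfl

theorem up1 (x n m : ℕ) : update (s1 x n) 1 m = s1 x m := by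
  funext r
  simp only [update_apply, s1]
  split_ifs <;> omega

/-- The whole round. -/
def prog (c0 c1 : Cmd) : Cmd :=
  .seq c0 (.seq (.inc 0) (.seq (.seq (clear 0) c1) (.seq (.inc 0) (.seq (clear 0) (.inc 1)))))

/-- The first check place. -/
def pa (c0 : Cmd) : ℕ := len c0

/-- The second check place. -/
def pb (c0 c1 : Cmd) : ℕ := len c0 + 1 + len (.seq (clear 0) c1)

/-- The program. -/
def PP (c0 c1 : Cmd) : List Ins := code (prog c0 c1) 0 ++ [.jmp 0]

/-- The property of all configurations. -/
def V (c0 c1 : Cmd) (x : ℕ × (ℕ → ℕ)) : Prop :=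
  (x.1 = pa c0 → ∃ n, x.2 0 = F false n) ∧ (x.1 = pb c0 c1 → ∃ n, x.2 0 = F true n)

theorem round (c0 c1 : Cmd)
    (h0 : ∀ σ : ℕ → ℕ, (∀ r, 2 ≤ r → σ r = 0) → σ 0 = 0 → Exec c0 σ (update σ 0 (F false (σ 1))))
    (h1 : ∀ σ : ℕ → ℕ, (∀ r, 2 ≤ r → σ r = 0) → σ 0 = 0 → Exec c1 σ (update σ 0 (F true (σ 1))))
    (n : ℕ) :
    Path (PP c0 c1) (V c0 c1) (0, s0 n) (pa c0, s1 (F false n) n) ∧
    Path (PP c0 c1) (V c0 c1) (pa c0, s1 (F false n) n) (pb c0 c1, s1 (F true n) n) ∧
    Path (PP c0 c1) (V c0 c1) (pb c0 c1, s1 (F true n) n) (len (prog c0 c1), s0 (n + 1)) ∧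
    step (PP c0 c1) (len (prog c0 c1), s0 (n + 1)) = (0, s0 (n + 1)) := by
  have hs : ∀ r, 2 ≤ r → s0 n r = 0 := by
    intro r hr
    unfold s0
    rw [if_neg (by omega)]
  have e0 : Exec c0 (s0 n) (s1 (F false n) n) := (h0 (s0 n) hs rfl).congr rfl (by
    rw [← s1_zero, up0]; rfl)
  have e1 : Exec c1 (s0 n) (s1 (F true n) n) := (h1 (s0 n) hs rfl).congr rfl (by
    rw [← s1_zero, up0]; rfl)
  have e2 : Exec (.seq (clear 0) c1) (s1 (F false n + 1) n) (s1 (F true n) n) :=
    Exec.seq ((exec_clear 0 _).congr rfl (by rw [up0, s1_zero])) e1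
  have e3 : Exec (.seq (clear 0) (.inc 1)) (s1 (F true n + 1) n) (s0 (n + 1)) :=
    Exec.seq ((exec_clear 0 _).congr rfl (by rw [up0])) ((Exec.inc 1 _).congr rfl (by
      rw [up1]
      exact s1_zero (n + 1)))
  set P := PP c0 c1 with hP
  have a0 : IsAt P 0 (code (prog c0 c1) 0 ++ [.jmp 0]) := ⟨[], [], by simp [hP, PP], rfl⟩
  have a1 : IsAt P 0 (code (prog c0 c1) 0) := a0.left
  have a2 : IsAt P 0 (code c0 0) := a1.left
  have a3 : IsAt P (pa c0) (code (.seq (.inc 0) (.seq (.seq (clear 0) c1) (.seq (.inc 0)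
      (.seq (clear 0) (.inc 1))))) (pa c0)) := by
    have := a1.right
    rw [length_code] at this
    simpa only [zero_add, pa] using this
  have g3 : P[pa c0]? = some (.inc 0 (pa c0 + 1)) := a3.left.get
  have a4 : IsAt P (pa c0 + 1) (code (.seq (.seq (clear 0) c1) (.seq (.inc 0)
      (.seq (clear 0) (.inc 1)))) (pa c0 + 1)) := by
    have := a3.right
    rw [length_code] at this
    exact this
  have a5 : IsAt P (pa c0 + 1) (code (.seq (clear 0) c1) (pa c0 + 1)) := a4.left
  have a6 : IsAt P (pb c0 c1) (code (.seq (.inc 0) (.seq (clear 0) (.inc 1))) (pb c0 c1)) := by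
    have := a4.right
    rw [length_code] at this
    exact this
  have g6 : P[pb c0 c1]? = some (.inc 0 (pb c0 c1 + 1)) := a6.left.get
  have a7 : IsAt P (pb c0 c1 + 1) (code (.seq (clear 0) (.inc 1)) (pb c0 c1 + 1)) := by
    have := a6.right
    rw [length_code] at this
    exact this
  have g8 : P[len (prog c0 c1)]? = some (.jmp 0) := by
    have := a0.right
    rw [length_code, zero_add] at this
    exact this.get
  have hl : pb c0 c1 + 1 + len (.seq (clear 0) (.inc 1)) = len (prog c0 c1) := by
    simp only [pb, prog, len]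
    omega
  have hab : pa c0 < pb c0 c1 := by
    simp only [pa, pb]
    omega
  have t0 := sim' e0 P 0 a2
  rw [zero_add] at t0
  have t2 := sim' e2 P _ a5
  have t3 := sim' e3 P _ a7
  rw [hl] at t3
  refine ⟨t0.mono ?_, ?_, ?_, ?_⟩
  · intro x hx
    simp only [In] at hx
    refine ⟨fun h => ?_, fun h => ?_⟩
    · exfalso; simp only [pa] at h; omega
    · exfalso; simp only [pa] at hab; omega
  · refine Path.trans (t := (pa c0 + 1, s1 (F false n + 1) n)) (Path.one ?_ ?_)
      (t2.mono ?_)
    · simp only [step, g3]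
      rw [show s1 (F false n) n 0 = F false n from rfl, up0]
    · exact ⟨fun _ => ⟨n, rfl⟩, fun h => absurd h hab.ne⟩
    · intro x hx
      simp only [In] at hx
      refine ⟨fun h => ?_, fun h => ?_⟩
      · exfalso; omega
      · exfalso; simp only [pb] at h; simp only [pa] at hx; omega
  · refine Path.trans (t := (pb c0 c1 + 1, s1 (F true n + 1) n)) (Path.one ?_ ?_)
      (t3.mono ?_)
    · simp only [step, g6]
      rw [show s1 (F true n) n 0 = F true n from rfl, up0]
    · exact ⟨fun h => absurd h hab.ne', fun _ => ⟨n, rfl⟩⟩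
    · intro x hx
      simp only [In] at hx
      refine ⟨fun h => ?_, fun h => ?_⟩
      · exfalso; omega
      · exfalso; omega
  · simp only [step, g8]

/-- The places are bounded. -/
theorem PP_ok (c0 c1 : Cmd) : (PP c0 c1).length = len (prog c0 c1) + 1 ∧
    ∃ K, ∀ i ∈ PP c0 c1, Ok (K + 2) (len (prog c0 c1) + 1) i := by
  refine ⟨by simp [PP, length_code], ?_⟩
  obtain ⟨K, hK⟩ := code_ok (prog c0 c1)
  refine ⟨K, fun i hi => ?_⟩
  simp only [PP, List.mem_append, List.mem_singleton] at hi
  rcases hi with hi | rfl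
  · exact (hK 0 i hi).mono (by omega) (by omega)
  · exact Nat.zero_le _

/-- The configurations of the machine. -/
theorem exists_mch : ∃ M : Mch, (∀ P : ℕ → Bool, M.Cls P ↔ ∀ b n, P (G0 b n) ≠ b) := by
  obtain ⟨c0, h0⟩ := exists_cmd false
  obtain ⟨c1, h1⟩ := exists_cmd true
  have hr := round c0 c1 h0 h1
  obtain ⟨hlen, K, hK⟩ := PP_ok c0 c1
  set L := len (prog c0 c1) + 1 with hL
  have hab : pa c0 < pb c0 c1 := by
    simp only [pa, pb]
    omega
  have hbL : pb c0 c1 < L := by
    simp only [hL, pb, prog, len]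
    omega
  let M : Mch :=
    { N := K + 2
      Q := Fin (L + 1)
      fin := inferInstance
      dec := inferInstance
      ins := convP K L (PP c0 c1)
      q0 := 0
      chk := fun q => if (q : ℕ) = pa c0 then some false else if (q : ℕ) = pb c0 c1 then some true
        else none }
  have hci := fun j => conv_iter hlen hK (fun _ => 0) (fun _ _ => rfl) j
  set R : ℕ → ℕ × (ℕ → ℕ) := fun j => (step (PP c0 c1))^[j] (0, fun _ => 0) with hR
  have hrun : ∀ t, M.run t = (Fin.ofNat (L + 1) (R t).1, res (K + 3) (R t).2) := by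
    intro t
    have := (hci t).1
    exact this
  have hle : ∀ t, (R t).1 ≤ L := fun t => (hci t).2.1
  have hpc : ∀ t, (((M.run t).1 : Fin (L + 1)) : ℕ) = (R t).1 := by
    intro t
    rw [hrun t]
    exact ofNat_val L _ (by have := hle t; omega)
  have hreg : ∀ t, (M.run t).2 0 = (R t).2 0 := by
    intro t
    rw [hrun t]
    rfl
  have hchk : ∀ t b, M.chk (M.run t).1 = some b ↔
      (b = false ∧ (R t).1 = pa c0) ∨ (b = true ∧ (R t).1 = pb c0 c1) := by
    intro t b
    have e : M.chk (M.run t).1 = if (R t).1 = pa c0 then some false else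
        if (R t).1 = pb c0 c1 then some true else none := by
      rw [← hpc t]
    rw [e]
    split_ifs with g1 g2
    · cases b <;> simp [g1]
      omega
    · cases b <;> simp [g2]
      omega
    · cases b <;> simp [g1, g2]
  -- paths from the beginning
  have hs00 : s0 0 = fun _ => 0 := by
    funext r
    simp [s0]
  have hround : ∀ n, ∃ k, n ≤ k ∧ R k = (0, s0 n) ∧ ∀ j < k, V c0 c1 (R j) := by
    intro n
    induction n with
    | zero => exact ⟨0, le_rfl, by simp [hR, hs00], fun j hj => by omega⟩
    | succ n ih =>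
      obtain ⟨k, hk, e, v⟩ := ih
      obtain ⟨p1, p2, p3, p4⟩ := hr n
      obtain ⟨k', e', v'⟩ := p1.trans (p2.trans p3)
      have e2 : R (k' + k) = (len (prog c0 c1), s0 (n + 1)) := by
        simp only [hR] at e ⊢
        rw [iterate_add_apply, e, e']
      refine ⟨k' + k + 1, by omega, ?_, fun j hj => ?_⟩
      · have : R (k' + k + 1) = step (PP c0 c1) (R (k' + k)) := by
          simp only [hR]
          rw [iterate_succ_apply']
        rw [this, e2, p4]
      · by_cases hjk : j < k
        · exact v j hjk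
        · by_cases hj2 : j = k' + k
          · rw [hj2, e2]
            refine ⟨fun h => ?_, fun h => ?_⟩
            · exfalso; simp only at h; omega
            · exfalso
              simp only [pb, prog, len] at h
              omega
          · have := v' (j - k) (by omega)
            have e3 : R j = (step (PP c0 c1))^[j - k] (0, s0 n) := by
              have : R j = (step (PP c0 c1))^[j - k] (R k) := by
                simp only [hR]
                rw [← iterate_add_apply, show j - k + k = j by omega]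
              rw [this, e]
            rw [e3]
            exact this
  have hV : ∀ t, V c0 c1 (R t) := by
    intro t
    obtain ⟨k, hk, _, v⟩ := hround (t + 1)
    exact v t (by omega)
  have hmeet : ∀ n, (∃ t, R t = (pa c0, s1 (F false n) n)) ∧
      ∃ t, R t = (pb c0 c1, s1 (F true n) n) := by
    intro n
    obtain ⟨k, hk, e, v⟩ := hround n
    obtain ⟨p1, p2, p3, p4⟩ := hr n
    constructor
    · obtain ⟨k', e', _⟩ := p1
      refine ⟨k' + k, ?_⟩
      simp only [hR] at e ⊢
      rw [iterate_add_apply, e, e']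
    · obtain ⟨k', e', _⟩ := p1.trans p2
      refine ⟨k' + k, ?_⟩
      simp only [hR] at e ⊢
      rw [iterate_add_apply, e, e']
  refine ⟨M, fun P => ⟨fun hP b n => ?_, fun hP t b hb => ?_⟩⟩
  · obtain ⟨⟨t1, ht1⟩, ⟨t2, ht2⟩⟩ := hmeet n
    cases b with
    | false =>
      have := hP t1 false ((hchk t1 false).2 (Or.inl ⟨rfl, by rw [ht1]⟩))
      rw [hreg t1, ht1] at this
      rw [← F_val]
      exact this
    | true =>
      have := hP t2 true ((hchk t2 true).2 (Or.inr ⟨rfl, by rw [ht2]⟩))
      rw [hreg t2, ht2] at this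
      rw [← F_val]
      exact this
  · rw [hreg t]
    rcases (hchk t b).1 hb with ⟨rfl, hp⟩ | ⟨rfl, hp⟩
    · obtain ⟨n, hn⟩ := (hV t).1 hp
      rw [hn, F_val]
      exact hP _ _
    · obtain ⟨n, hn⟩ := (hV t).2 hp
      rw [hn, F_val]
      exact hP _ _

theorem t : StmMach := by
  obtain ⟨M, hM⟩ := exists_mch
  refine ⟨M, ?_, ?_⟩
  · classical
    refine ⟨fun m => if m = 0 then true else if m = 1 then false else
      decide (¬ ∃ k, Code.evaln k (Denumerable.ofNat Code (m - 2)) (m - 2) = some 1),
      (hM _).2 fun b n => ?_⟩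
    by_cases h : Code.evaln n.unpair.1 (Denumerable.ofNat Code n.unpair.2) n.unpair.2 =
        some (if b then 1 else 0)
    · have hG : G0 b n = n.unpair.2 + 2 := if_pos h
      rw [hG]
      have h2 : n.unpair.2 + 2 ≠ 0 := by omega
      have h3 : n.unpair.2 + 2 ≠ 1 := by omega
      simp only [h2, h3, if_false, Nat.add_sub_cancel]
      cases b with
      | true =>
        simp only [ne_eq, decide_eq_true_eq, not_not]
        exact ⟨_, h⟩
      | false =>
        simp only [ne_eq, decide_eq_false_iff_not, not_not]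
        rintro ⟨k, hk⟩
        have m1 := Code.evaln_sound (Option.mem_def.2 h)
        have m2 := Code.evaln_sound (Option.mem_def.2 hk)
        exact absurd (Part.mem_unique m1 m2) (by simp)
    · have hG : G0 b n = if b then 1 else 0 := if_neg h
      rw [hG]
      cases b <;> simp
  · intro P hP hcomp
    have hP' := (hM P).1 hP
    have h1 : Computable fun n : ℕ => P (n + 2) :=
      hcomp.comp (Computable.succ.comp Computable.succ)
    have h2 : Computable fun n : ℕ => cond (P (n + 2)) 1 0 :=
      Computable.cond h1 (Computable.const 1) (Computable.const 0)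
    have h3 : Partrec fun n : ℕ => (Part.some (cond (P (n + 2)) 1 0) : Part ℕ) := h2
    obtain ⟨c, hc⟩ := Code.exists_code.1 (Partrec.nat_iff.1 h3)
    set e := Encodable.encode c with he
    have hce : Denumerable.ofNat Code e = c := by
      rw [he]
      exact Denumerable.ofNat_encode c
    have hev : cond (P (e + 2)) 1 0 ∈ c.eval e := by
      rw [hc]
      exact Part.mem_some _
    obtain ⟨k, hk⟩ := Code.evaln_complete.1 hev
    have hG : G0 (P (e + 2)) (Nat.pair k e) = e + 2 := by
      unfold G0
      rw [Nat.unpair_pair]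
      simp only [hce]
      rw [if_pos]
      rw [Option.mem_def] at hk
      rw [hk]
      cases P (e + 2) <;> rfl
    exact hP' (P (e + 2)) (Nat.pair k e) (by rw [hG])

end Pool.Agent.Y550.BC.Mach
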